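import Pool.Agent.H497_Line.HK3

set_option autoImplicit false

open MeasureTheory Set Filter
open scoped Topology

/-!
Site percolation on `Z^d`, `d ≥ 2`, at the critical point: almost surely, for every vertex `x` of an
infinite open cluster, the return probabilities of the random walk on the cluster satisfy
`limsup n^(d/2) P^n(x, x) = ∞`.
-/

namespace Pool.Agent.Results.MP_e13933_pr.AnomalousHeatKernel

noncomputable section

/-- Vertices of `Z^d`. -/
abbrev V (d : ℕ) : Type := Fin d → ℤ

/-- The open subgraph inside the region `S`: two vertices at Euclidean distance one are joined if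
both are open (`ω x = true`) and in `S`. -/
def openGraph {d : ℕ} (ω : V d → Bool) (S : Set (V d)) : SimpleGraph (V d) where
  Adj x y := ∑ i, |x i - y i| = 1 ∧ (x ∈ S ∧ ω x = true) ∧ (y ∈ S ∧ ω y = true)
  symm := ⟨fun x y ⟨h1, h2, h3⟩ => ⟨by simpa only [abs_sub_comm] using h1, h3, h2⟩⟩
  loopless := ⟨fun x h => by simpa using h.1⟩

/-- The open cluster of `x` inside the region `S` (empty if `x` is closed). -/
def cluster {d : ℕ} (ω : V d → Bool) (S : Set (V d)) (x : V d) : Set (V d) :=
  {y | (ω x = true ∧ x ∈ S) ∧ (openGraph ω S).Reachable x y}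

/-- Site percolation with parameter `p`: all vertices are open with probability `p`,
independently. -/
def P (d : ℕ) (p : unitInterval) : Measure (V d → Bool) :=
  Measure.infinitePi (fun _ : V d =>
    ENNReal.ofReal (p : ℝ) • Measure.dirac true + ENNReal.ofReal (1 - (p : ℝ)) • Measure.dirac false)

/-- The percolation probability `θ_d(p)`. -/
def theta (d : ℕ) (p : unitInterval) : ℝ := (P d p).real {ω | (cluster ω univ 0).Infinite}

/-- The critical point `p_c(d)`, the supremum of the parameters with `θ_d(p) = 0`. -/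
def pc (d : ℕ) : unitInterval :=
  ⟨sSup {t : ℝ | ∃ q : unitInterval, (q : ℝ) = t ∧ theta d q = 0}, by
    constructor
    · apply Real.sSup_nonneg
      rintro x ⟨q, rfl, _⟩
      exact q.2.1
    · apply Real.sSup_le
      · rintro x ⟨q, rfl, _⟩
        exact q.2.2
      · exact zero_le_one⟩

/-- The unit vector `± e_i`, for `s = (i, ±)`. -/
def unit {d : ℕ} (s : Fin d × Bool) : V d := Pi.single s.1 (if s.2 then 1 else -1)

/-- The `n`-step transition probabilities of the random walk on the open clusters: at each step one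
of the `2 d` neighbours is chosen uniformly at random, and the walk moves there if its present
position and the chosen neighbour are both open; otherwise it does not move. -/
def heat {d : ℕ} (ω : V d → Bool) : ℕ → V d → V d → ℝ
  | 0, x, y => if x = y then 1 else 0
  | n + 1, x, y => (∑ s : Fin d × Bool, if ω x = true ∧ ω (x + unit s) = true then
      heat ω n (x + unit s) y else heat ω n x y) / (2 * d)

lemma nd_mem {d : ℕ} {ω : V d → Bool} {x y : V d} :
    (∀ c ∈ (Pool.Agent.Y990.CB.siteM d).nd x y, ω c = true) ↔ ω x = true ∧ ω y = true := by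
  show (∀ c : V d, c ∈ ({x, y} : Finset (V d)) → ω c = true) ↔ _
  simp only [Finset.mem_insert, Finset.mem_singleton, forall_eq_or_imp, forall_eq]

open Pool.Agent.Y990.CB in
lemma adj_iff {d : ℕ} (ω : V d → Bool) (S : Set (V d)) (x y : V d) :
    (openGraph ω S).Adj x y ↔ (G (siteM d) ω S).Adj x y := by
  show (∑ i, |x i - y i| = 1 ∧ (x ∈ S ∧ ω x = true) ∧ (y ∈ S ∧ ω y = true)) ↔
    (∑ i, |x i - y i| = 1 ∧ x ∈ S ∧ y ∈ S ∧ ∀ c ∈ (siteM d).nd x y, ω c = true)
  rw [nd_mem]
  tauto

open Pool.Agent.Y990.CB in
lemma graph_eq {d : ℕ} (ω : V d → Bool) (S : Set (V d)) :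
    openGraph ω S = G (siteM d) ω S := by
  ext x y
  exact adj_iff ω S x y

open Pool.Agent.Y990.CB in
lemma cluster_sub {d : ℕ} (ω : V d → Bool) (S : Set (V d)) (x : V d) :
    cluster ω S x ⊆ cl (siteM d) ω S x := by
  rintro y ⟨-, h⟩
  rw [graph_eq] at h
  exact h

open Pool.Agent.Y990.CB in
lemma infinite_iff {d : ℕ} (ω : V d → Bool) (x : V d) :
    (cluster ω univ x).Infinite ↔ ω ∈ Perc (siteM d) x := by
  constructor
  · intro h
    exact h.mono (cluster_sub ω univ x)
  · intro h
    have hx : ω x = true := by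
      obtain ⟨y, hy, hyx⟩ := Set.Infinite.exists_notMem_finset h {x}
      have hyx' : y ≠ x := by simpa using hyx
      have hr : (G (siteM d) ω univ).Reachable x y := hy
      obtain ⟨q⟩ := hr
      cases q with
      | nil => exact absurd rfl hyx'
      | cons hadj _ => exact (nd_mem.1 hadj.2.2.2).1
    refine Set.Infinite.mono ?_ h
    intro y hy
    refine ⟨⟨hx, mem_univ x⟩, ?_⟩
    rw [graph_eq]
    exact hy

open Pool.Agent.Y990.CB in
lemma P_eq (d : ℕ) (p : unitInterval) : P d p = mu (siteM d) p := rfl

open Pool.Agent.Y990.CB in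
lemma theta_eq (d : ℕ) (p : unitInterval) : theta d p = th (siteM d) p := by
  unfold theta th
  rw [P_eq]
  congr 1
  ext ω
  exact infinite_iff ω 0

open Pool.Agent.Y990.CB in
lemma pc_eq (d : ℕ) : pc d = Pool.Agent.Y990.CB.pc (siteM d) := by
  apply Subtype.ext
  show sSup {t : ℝ | ∃ q : unitInterval, (q : ℝ) = t ∧ theta d q = 0} =
    sSup {x : ℝ | ∃ q : unitInterval, (q : ℝ) = x ∧ th (siteM d) q = 0}
  simp only [theta_eq]

lemma heat_eq {d : ℕ} (ω : V d → Bool) (n : ℕ) : ∀ x y : V d,
    heat ω n x y = Pool.Agent.H497_Line.wk (d := d) ω n x y := by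
  induction n with
  | zero => exact fun x y => rfl
  | succ n ih =>
    intro x y
    show (∑ s : Fin d × Bool, if ω x = true ∧ ω (x + unit s) = true then
      heat ω n (x + unit s) y else heat ω n x y) / (2 * d) = _
    simp only [ih]
    rfl

/-- **Anomalous return probabilities at the critical point.**  For every `d ≥ 2`, almost surely
under `P_{p_c}`, for every vertex `x` whose open cluster is infinite,
`limsup n ^ (d / 2) * P^n(x, x) = ∞`. -/
theorem result (d : ℕ) (hd : 2 ≤ d) :
    ∀ᵐ ω ∂(P d (pc d)), ∀ x : V d, (cluster ω univ x).Infinite →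
      ∀ A : ℝ, ∃ᶠ n : ℕ in atTop, A < √(n : ℝ) ^ d * heat ω n x x := by
  have h1 := Pool.Agent.H497_Line.hk_ae hd
  rw [P_eq, pc_eq]
  filter_upwards [h1] with ω hω x hx A
  refine (hω x ((infinite_iff ω x).1 hx) A).mono fun n hn => ?_
  rw [heat_eq]
  exact hn

end

end Pool.Agent.Results.MP_e13933_pr.AnomalousHeatKernel
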