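import Pool.Agent.H87NC.Fin

set_option autoImplicit false

open MeasureTheory Set

/-!
Site percolation on `Z^d`, `d ≥ 3`, slightly above the critical point.  The truncated connectivity
function (the probability that `x` is in the cluster of the origin and this cluster is finite) is
at least `c (m + 1) ^ (-a) exp (-C (p - p_c) ^ b m)` for `x` of sup norm `m`, and the probability
that no vertex of the box of radius `m` is in an infinite cluster is at least
`c (m + 1) ^ (-a) exp (-C ((p - p_c) ^ b m) ^ (d - 1))`.  So the correlation length of the finite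
clusters diverges at least like a power of `p - p_c`, and the exponential rate of surface order of
the holes vanishes at least like a power of `p - p_c`.
-/

namespace Pool.Agent.Results.MP_e13933_pr.NearCritical

noncomputable section

/-- Vertices of `Z^d`. -/
abbrev V (d : ℕ) : Type := Fin d → ℤ

/-- The box of radius `N` around the origin. -/
def box (d N : ℕ) : Set (V d) := {x | ∀ i, |x i| ≤ N}

/-- The boundary of the box of radius `N`: the vertices with sup norm `N`. -/
def sphere (d N : ℕ) : Set (V d) := {x | x ∈ box d N ∧ ∃ i, |x i| = N}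

/-- The open subgraph inside the region `S`: two vertices at Euclidean distance one are joined if
both are open (`ω x = true`) and in `S`. -/
def openGraph {d : ℕ} (ω : V d → Bool) (S : Set (V d)) : SimpleGraph (V d) where
  Adj x y := ∑ i, |x i - y i| = 1 ∧ (x ∈ S ∧ ω x = true) ∧ (y ∈ S ∧ ω y = true)
  symm := ⟨fun x y ⟨h1, h2, h3⟩ => ⟨by simpa only [abs_sub_comm] using h1, h3, h2⟩⟩
  loopless := ⟨fun x h => by simpa using h.1⟩

/-- The open cluster of `x` inside the region `S` (empty if `x` is closed). -/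
def cluster {d : ℕ} (ω : V d → Bool) (S : Set (V d)) (x : V d) : Set (V d) :=
  {y | (ω x = true ∧ x ∈ S) ∧ (openGraph ω S).Reachable x y}

/-- Site percolation with parameter `p`: all vertices are open with probability `p`,
independently. -/
def P (d : ℕ) (p : unitInterval) : Measure (V d → Bool) :=
  Measure.infinitePi (fun _ : V d =>
    ENNReal.ofReal (p : ℝ) • Measure.dirac true + ENNReal.ofReal (1 - (p : ℝ)) • Measure.dirac false)

/-- The percolation probability `θ_d(p)`. -/
def theta (d : ℕ) (p : unitInterval) : ℝ := (P d p).real {ω | (cluster ω univ 0).Infinite}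

/-- The critical point `p_c(d)`, the supremum of the parameters with `θ_d(p) = 0`. -/
def pc (d : ℕ) : unitInterval :=
  ⟨sSup {t : ℝ | ∃ q : unitInterval, (q : ℝ) = t ∧ theta d q = 0}, by
    constructor
    · apply Real.sSup_nonneg
      rintro x ⟨q, rfl, _⟩
      exact q.2.1
    · apply Real.sSup_le
      · rintro x ⟨q, rfl, _⟩
        exact q.2.2
      · exact zero_le_one⟩

lemma nd_mem {d : ℕ} {ω : V d → Bool} {x y : V d} :
    (∀ c ∈ (Pool.Agent.Y990.CB.siteM d).nd x y, ω c = true) ↔ ω x = true ∧ ω y = true := by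
  show (∀ c : V d, c ∈ ({x, y} : Finset (V d)) → ω c = true) ↔ _
  simp only [Finset.mem_insert, Finset.mem_singleton, forall_eq_or_imp, forall_eq]

open Pool.Agent.Y990.CB in
lemma adj_iff {d : ℕ} (ω : V d → Bool) (S : Set (V d)) (x y : V d) :
    (openGraph ω S).Adj x y ↔ (G (siteM d) ω S).Adj x y := by
  show (∑ i, |x i - y i| = 1 ∧ (x ∈ S ∧ ω x = true) ∧ (y ∈ S ∧ ω y = true)) ↔
    (∑ i, |x i - y i| = 1 ∧ x ∈ S ∧ y ∈ S ∧ ∀ c ∈ (siteM d).nd x y, ω c = true)
  rw [nd_mem]
  tauto

open Pool.Agent.Y990.CB in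
lemma graph_eq {d : ℕ} (ω : V d → Bool) (S : Set (V d)) :
    openGraph ω S = G (siteM d) ω S := by
  ext x y
  exact adj_iff ω S x y

open Pool.Agent.Y990.CB in
lemma cluster_sub {d : ℕ} (ω : V d → Bool) (S : Set (V d)) (x : V d) :
    cluster ω S x ⊆ cl (siteM d) ω S x := by
  rintro y ⟨-, h⟩
  rw [graph_eq] at h
  exact h

open Pool.Agent.Y990.CB in
/-- A vertex connected to a different vertex is open. -/
lemma open_of {d : ℕ} {ω : V d → Bool} {S : Set (V d)} {x y : V d} (hxy : y ≠ x)
    (hr : (G (siteM d) ω S).Reachable x y) : ω x = true ∧ x ∈ S := by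
  obtain ⟨q⟩ := hr
  cases q with
  | nil => exact absurd rfl hxy
  | cons hadj _ => exact ⟨(nd_mem.1 hadj.2.2.2).1, hadj.2.1⟩

open Pool.Agent.Y990.CB in
lemma infinite_iff {d : ℕ} (ω : V d → Bool) (x : V d) :
    (cluster ω univ x).Infinite ↔ ω ∈ Perc (siteM d) x := by
  constructor
  · intro h
    exact h.mono (cluster_sub ω univ x)
  · intro h
    obtain ⟨y, hy, hyx⟩ := Set.Infinite.exists_notMem_finset h {x}
    have hyx' : y ≠ x := by simpa using hyx
    have hx := open_of hyx' hy
    refine Set.Infinite.mono ?_ h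
    intro z hz
    refine ⟨hx, ?_⟩
    rw [graph_eq]
    exact hz

open Pool.Agent.Y990.CB in
lemma P_eq (d : ℕ) (p : unitInterval) : P d p = mu (siteM d) p := rfl

open Pool.Agent.Y990.CB in
lemma theta_eq (d : ℕ) (p : unitInterval) : theta d p = th (siteM d) p := by
  unfold theta th
  rw [P_eq]
  congr 1
  ext ω
  exact infinite_iff ω 0

open Pool.Agent.Y990.CB in
lemma pc_eq (d : ℕ) : pc d = Pool.Agent.Y990.CB.pc (siteM d) := by
  apply Subtype.ext
  show sSup {t : ℝ | ∃ q : unitInterval, (q : ℝ) = t ∧ theta d q = 0} =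
    sSup {x : ℝ | ∃ q : unitInterval, (q : ℝ) = x ∧ th (siteM d) q = 0}
  simp only [theta_eq]

open Pool.Agent.Y990.CB in
lemma box_eq (d N : ℕ) : box d N = Bo (0 : V d) N := by
  ext x
  simp only [box, Bo, mem_ofPred_eq, Pi.zero_apply, sub_zero]

open Pool.Agent.Y990.CB in
lemma sphere_eq (d N : ℕ) : sphere d N = Fr (0 : V d) N := by
  ext x
  simp only [sphere, Fr, box_eq, mem_ofPred_eq, Pi.zero_apply, sub_zero]

open Pool.Agent.Y990.CB in
/-- Vertices of the small box are not on the boundary of the large box. -/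
lemma ne_of_box {d k n : ℕ} (h : k < n) {x y : V d} (hx : x ∈ Bo (0 : V d) k)
    (hy : y ∈ Fr (0 : V d) n) : y ≠ x := by
  rintro rfl
  obtain ⟨i, hi⟩ := hy.2
  have h1 := hx i
  rw [hi] at h1
  have : n ≤ k := by exact_mod_cast h1
  omega

/-- The truncated connectivity function: the probability that `x` is in the open cluster of the
origin and this cluster is finite. -/
def tauf (d : ℕ) (p : unitInterval) (x : V d) : ℝ :=
  (P d p).real {ω | (cluster ω univ 0).Finite ∧ x ∈ cluster ω univ 0}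

open Pool.Agent.Y990.CB in
lemma two_of {d m : ℕ} (hm : 1 ≤ m) (ω : V d → Bool) (x : V d) (hx : x ∈ sphere d m)
    (hfin : (cl (siteM d) ω univ 0).Finite) (hxc : x ∈ cl (siteM d) ω univ 0) :
    (cluster ω univ 0).Finite ∧ x ∈ cluster ω univ 0 := by
  have hx0 : x ≠ 0 := by
    rintro rfl
    obtain ⟨i, hi⟩ := hx.2
    rw [Pi.zero_apply, abs_zero] at hi
    have : (m : ℤ) = 0 := hi.symm
    omega
  refine ⟨hfin.subset (cluster_sub ω univ 0), open_of hx0 hxc, ?_⟩
  rw [graph_eq]
  exact hxc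

/-- The vertex `n e_i`. -/
lemma single_sphere {d n : ℕ} (i : Fin d) : (Pi.single i (n : ℤ) : V d) ∈ sphere d n := by
  refine ⟨fun j => ?_, i, ?_⟩
  · by_cases hj : j = i
    · subst hj
      rw [Pi.single_eq_same, Nat.abs_cast]
    · rw [Pi.single_eq_of_ne hj, abs_zero]
      exact Nat.cast_nonneg n
  · rw [Pi.single_eq_same, Nat.abs_cast]

/-- A lower bound of the form `c (n + 1) ^ (-a) exp (-s n)` bounds the exponential rate. -/
lemma rate {f : ℕ → ℝ} {a : ℕ} {c s r : ℝ} (hc : 0 < c)
    (h : ∀ n : ℕ, 1 ≤ n → c / ((n : ℝ) + 1) ^ a * Real.exp (-(s * n)) ≤ f n)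
    (hr : Filter.Tendsto (fun n : ℕ => -Real.log (f n) / n) Filter.atTop (nhds r)) : r ≤ s := by
  have h1 : Filter.Tendsto (fun n : ℕ => Real.log ((n : ℝ) + 1) ^ 1 / (1 * ((n : ℝ) + 1) + -1))
      Filter.atTop (nhds 0) :=
    (Real.tendsto_pow_log_div_mul_add_atTop 1 (-1) 1 one_ne_zero).comp
      (Filter.tendsto_atTop_add_const_right _ 1 tendsto_natCast_atTop_atTop)
  have h2 : Filter.Tendsto (fun n : ℕ => -Real.log c / (n : ℝ)) Filter.atTop (nhds 0) :=
    tendsto_const_div_atTop_nhds_zero_nat _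
  have h3 : Filter.Tendsto (fun n : ℕ => -Real.log c / (n : ℝ) +
      a * (Real.log ((n : ℝ) + 1) ^ 1 / (1 * ((n : ℝ) + 1) + -1)) + s) Filter.atTop
      (nhds (0 + a * 0 + s)) := (h2.add (h1.const_mul _)).add_const s
  rw [mul_zero, add_zero, zero_add] at h3
  refine le_of_tendsto_of_tendsto hr h3 ?_
  filter_upwards [Filter.eventually_ge_atTop 1] with n hn
  have hn0 : (0 : ℝ) < n := by exact_mod_cast hn
  have hn1 : (0 : ℝ) < (n : ℝ) + 1 := by linarith
  have hlow : 0 < c / ((n : ℝ) + 1) ^ a * Real.exp (-(s * n)) := by positivity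
  have h4 := Real.log_le_log hlow (h n hn)
  rw [Real.log_mul (by positivity) (Real.exp_ne_zero _), Real.log_exp,
    Real.log_div hc.ne' (by positivity), Real.log_pow] at h4
  have e1 : (1 : ℝ) * ((n : ℝ) + 1) + -1 = n := by ring
  rw [e1, pow_one, div_le_iff₀ hn0, add_mul, add_mul, mul_assoc, div_mul_cancel₀ _ hn0.ne',
    div_mul_cancel₀ _ hn0.ne']
  linarith

/-- **Finite clusters and holes slightly above the critical point.**  For every `d ≥ 3` there are
`a`, `b > 0`, `c > 0` and `C ≥ 0` such that for all `p` with `p_c ≤ p ≤ (1 + p_c) / 2`: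

* for all `m ≥ 1` and all `x` of sup norm `m`, with `P_p`-probability at least
  `c (m + 1) ^ (-a) exp (-C (p - p_c) ^ b m)` the cluster of the origin is finite and contains `x`;
* for all `m ≥ 1`, with `P_p`-probability at least
  `c (m + 1) ^ (-a) exp (-C ((p - p_c) ^ b m) ^ (d - 1))` no vertex of the box of radius `m` is in
  an infinite cluster;
* the exponential decay rate of the truncated connectivity function along a coordinate axis (the
  inverse of the correlation length) is at most `C (p - p_c) ^ b`. -/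
theorem result (d : ℕ) (hd : 3 ≤ d) : ∃ (a : ℕ) (b c C : ℝ), 0 < b ∧ 0 < c ∧ 0 ≤ C ∧
    ∀ p : unitInterval, pc d ≤ p → (p : ℝ) ≤ (1 + pc d) / 2 →
      (∀ m : ℕ, 1 ≤ m → ∀ x ∈ sphere d m,
        c / ((m : ℝ) + 1) ^ a * Real.exp (-(C * ((p : ℝ) - pc d) ^ b * m)) ≤ tauf d p x) ∧
      (∀ m : ℕ, 1 ≤ m →
        c / ((m : ℝ) + 1) ^ a * Real.exp (-(C * (((p : ℝ) - pc d) ^ b * m) ^ (d - 1))) ≤
          (P d p).real {ω | ∀ x ∈ box d m, (cluster ω univ x).Finite}) ∧
      ∀ (i : Fin d) (r : ℝ), Filter.Tendsto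
        (fun n : ℕ => -Real.log (tauf d p (Pi.single i (n : ℤ))) / n) Filter.atTop (nhds r) →
        r ≤ C * ((p : ℝ) - pc d) ^ b := by
  have hN : Pool.Agent.Y990.CB.Nd (Pool.Agent.Y990.CB.siteM d) := Pool.Agent.Y990.CB.nd_site
  have hQ : Pool.Agent.Y990.CB.Qm (Pool.Agent.Y990.CB.siteM d) := Pool.Agent.Y448.CB2.qm_site d
  obtain ⟨a, b, c, C, hb, hc, hC, h⟩ :=
    Pool.Agent.H87NC.main hd (Pool.Agent.Y990.CB.siteM d) hN hQ
  refine ⟨a, b, c, C, hb, hc, hC, fun p hp hp2 => ?_⟩
  have h' := h p (by rw [← pc_eq]; exact hp) (by rw [← pc_eq]; exact hp2)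
  rw [← pc_eq] at h'
  have h1 : ∀ m : ℕ, 1 ≤ m → ∀ x ∈ sphere d m,
      c / ((m : ℝ) + 1) ^ a * Real.exp (-(C * ((p : ℝ) - pc d) ^ b * m)) ≤ tauf d p x := by
    intro m hm x hx
    have h2 := (h' m).2 x (by rw [← box_eq]; exact hx.1)
    rw [← mul_assoc C] at h2
    refine h2.trans ?_
    unfold tauf
    rw [P_eq]
    refine measureReal_mono ?_ (measure_ne_top _ _)
    rintro ω ⟨hfin, hxc⟩
    exact two_of hm ω x hx hfin hxc
  refine ⟨h1, fun m _ => ?_, fun i r hr => ?_⟩
  · refine (h' m).1.trans ?_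
    rw [P_eq]
    refine measureReal_mono ?_ (measure_ne_top _ _)
    intro ω hω x hx
    rw [box_eq] at hx
    exact (hω x hx).subset (cluster_sub ω univ x)
  · exact rate hc (fun n hn => h1 n hn _ (single_sphere i)) hr

end

end Pool.Agent.Results.MP_e13933_pr.NearCritical
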