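import Pool.Agent.H497_Line.Ae
import Pool.Agent.Y333.CB.Sim

set_option autoImplicit false

open MeasureTheory Set Filter
open scoped Topology

/-!
Site percolation on `Z^d`, `d ≥ 2`, at the critical point: chemical distances in an infinite
cluster would be superlinear.  Almost surely, for every vertex `x` in an infinite cluster `C`, every
nonzero `v` in `Z^d` and every `K`, the set of the `n` such that `n v` is in `C` and no open path
joins `x` and `n v` inside the box of radius `K |n v|` around `x` has upper density at least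
`θ(p_c) / (10^14 (K + 1))`.
-/

namespace Pool.Agent.Results.MP_e13933_pr.SuperlinearDistances

noncomputable section

/-- Vertices of `Z^d`. -/
abbrev V (d : ℕ) : Type := Fin d → ℤ

/-- The box of radius `r` around `z`. -/
def box {d : ℕ} (z : V d) (r : ℕ) : Set (V d) := {x | ∀ i, |x i - z i| ≤ r}

/-- The maximum norm. -/
def norm {d : ℕ} (v : V d) : ℕ := Finset.univ.sup (fun i => (v i).natAbs)

/-- The open subgraph inside the region `S`: two vertices at Euclidean distance one are joined if
both are open (`ω x = true`) and in `S`. -/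
def openGraph {d : ℕ} (ω : V d → Bool) (S : Set (V d)) : SimpleGraph (V d) where
  Adj x y := ∑ i, |x i - y i| = 1 ∧ (x ∈ S ∧ ω x = true) ∧ (y ∈ S ∧ ω y = true)
  symm := ⟨fun x y ⟨h1, h2, h3⟩ => ⟨by simpa only [abs_sub_comm] using h1, h3, h2⟩⟩
  loopless := ⟨fun x h => by simpa using h.1⟩

/-- The open cluster of `x` inside the region `S` (empty if `x` is closed). -/
def cluster {d : ℕ} (ω : V d → Bool) (S : Set (V d)) (x : V d) : Set (V d) :=
  {y | (ω x = true ∧ x ∈ S) ∧ (openGraph ω S).Reachable x y}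

/-- Site percolation with parameter `p`: all vertices are open with probability `p`,
independently. -/
def P (d : ℕ) (p : unitInterval) : Measure (V d → Bool) :=
  Measure.infinitePi (fun _ : V d =>
    ENNReal.ofReal (p : ℝ) • Measure.dirac true + ENNReal.ofReal (1 - (p : ℝ)) • Measure.dirac false)

/-- The percolation probability `θ_d(p)`. -/
def theta (d : ℕ) (p : unitInterval) : ℝ := (P d p).real {ω | (cluster ω univ 0).Infinite}

/-- The critical point `p_c(d)`, the supremum of the parameters with `θ_d(p) = 0`. -/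
def pc (d : ℕ) : unitInterval :=
  ⟨sSup {t : ℝ | ∃ q : unitInterval, (q : ℝ) = t ∧ theta d q = 0}, by
    constructor
    · apply Real.sSup_nonneg
      rintro x ⟨q, rfl, _⟩
      exact q.2.1
    · apply Real.sSup_le
      · rintro x ⟨q, rfl, _⟩
        exact q.2.2
      · exact zero_le_one⟩

lemma nd_mem {d : ℕ} {ω : V d → Bool} {x y : V d} :
    (∀ c ∈ (Pool.Agent.Y990.CB.siteM d).nd x y, ω c = true) ↔ ω x = true ∧ ω y = true := by
  show (∀ c : V d, c ∈ ({x, y} : Finset (V d)) → ω c = true) ↔ _
  simp only [Finset.mem_insert, Finset.mem_singleton, forall_eq_or_imp, forall_eq]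

open Pool.Agent.Y990.CB in
lemma adj_iff {d : ℕ} (ω : V d → Bool) (S : Set (V d)) (x y : V d) :
    (openGraph ω S).Adj x y ↔ (G (siteM d) ω S).Adj x y := by
  show (∑ i, |x i - y i| = 1 ∧ (x ∈ S ∧ ω x = true) ∧ (y ∈ S ∧ ω y = true)) ↔
    (∑ i, |x i - y i| = 1 ∧ x ∈ S ∧ y ∈ S ∧ ∀ c ∈ (siteM d).nd x y, ω c = true)
  rw [nd_mem]
  tauto

open Pool.Agent.Y990.CB in
lemma graph_eq {d : ℕ} (ω : V d → Bool) (S : Set (V d)) :
    openGraph ω S = G (siteM d) ω S := by
  ext x y
  exact adj_iff ω S x y

open Pool.Agent.Y990.CB in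
lemma cluster_sub {d : ℕ} (ω : V d → Bool) (S : Set (V d)) (x : V d) :
    cluster ω S x ⊆ cl (siteM d) ω S x := by
  rintro y ⟨-, h⟩
  rw [graph_eq] at h
  exact h

open Pool.Agent.Y990.CB in
lemma infinite_iff {d : ℕ} (ω : V d → Bool) (x : V d) :
    (cluster ω univ x).Infinite ↔ ω ∈ Perc (siteM d) x := by
  constructor
  · intro h
    exact h.mono (cluster_sub ω univ x)
  · intro h
    have hx : ω x = true := by
      obtain ⟨y, hy, hyx⟩ := Set.Infinite.exists_notMem_finset h {x}
      have hyx' : y ≠ x := by simpa using hyx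
      have hr : (G (siteM d) ω univ).Reachable x y := hy
      obtain ⟨q⟩ := hr
      cases q with
      | nil => exact absurd rfl hyx'
      | cons hadj _ => exact (nd_mem.1 hadj.2.2.2).1
    refine Set.Infinite.mono ?_ h
    intro y hy
    refine ⟨⟨hx, mem_univ x⟩, ?_⟩
    rw [graph_eq]
    exact hy

open Pool.Agent.Y990.CB in
lemma P_eq (d : ℕ) (p : unitInterval) : P d p = mu (siteM d) p := rfl

open Pool.Agent.Y990.CB in
lemma theta_eq (d : ℕ) (p : unitInterval) : theta d p = th (siteM d) p := by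
  unfold theta th
  rw [P_eq]
  congr 1
  ext ω
  exact infinite_iff ω 0

open Pool.Agent.Y990.CB in
lemma pc_eq (d : ℕ) : pc d = Pool.Agent.Y990.CB.pc (siteM d) := by
  apply Subtype.ext
  show sSup {t : ℝ | ∃ q : unitInterval, (q : ℝ) = t ∧ theta d q = 0} =
    sSup {x : ℝ | ∃ q : unitInterval, (q : ℝ) = x ∧ th (siteM d) q = 0}
  simp only [theta_eq]

open Pool.Agent.Y990.CB in
lemma box_eq {d : ℕ} (z : V d) (r : ℕ) : box z r = Bo z r := rfl

lemma norm_eq {d : ℕ} (v : V d) : norm v = Pool.Agent.Y990.CB.nm v := rfl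

open Pool.Agent.Y990.CB in
lemma open_of_inf {d : ℕ} {ω : V d → Bool} {x : V d} (h : (cluster ω univ x).Infinite) :
    ω x = true := by
  obtain ⟨y, hy⟩ := h.nonempty
  exact hy.1.1

/-- **Superlinear chemical distances at the critical point.**  For every `d ≥ 2`, almost surely
under `P_{p_c}`: for every vertex `x` whose cluster `C` is infinite, every nonzero `v` in `Z^d`,
every `K` and every `a < θ(p_c) / (10^14 (K + 1))` there are infinitely many `N` such that for more
than `a N` of the `n < N` the point `n v` belongs to `C`, but `x` and `n v` are not connected by an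
open path inside the box of radius `K |n v|` around `x`, so that their chemical distance exceeds
`K |n v|`. -/
theorem result (d : ℕ) (hd : 2 ≤ d) :
    ∀ᵐ ω ∂(P d (pc d)), ∀ x : V d, (cluster ω univ x).Infinite → ∀ v : V d, v ≠ 0 →
      ∀ (K : ℕ) (a : ℝ), a < theta d (pc d) / (10 ^ 14 * (K + 1)) →
        ∃ᶠ N : ℕ in atTop, a * N < ({n : ℕ | n < N ∧ n • v ∈ cluster ω univ x ∧
          n • v ∉ cluster ω (box x (K * norm (n • v))) x ∧
          K * norm (n • v) < (openGraph ω univ).dist x (n • v)}.ncard : ℝ) := by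
  have hN : Pool.Agent.Y990.CB.Nd (Pool.Agent.Y990.CB.siteM d) := Pool.Agent.Y990.CB.nd_site
  have hpos : 0 < Pool.Agent.Y990.CB.pc (Pool.Agent.Y990.CB.siteM d) :=
    Pool.Agent.Y333.CB.pc_pos d _ hN
  have h1 := Pool.Agent.H497_Line.far_ae hd
  have h2 := Pool.Agent.H497_Line.uniq_ae (Pool.Agent.Y990.CB.siteM d) _ hpos
  rw [P_eq, pc_eq, theta_eq]
  filter_upwards [h1, h2] with ω h1 h2 x hx v hv K a ha
  have hxo := open_of_inf hx
  have hx' := (infinite_iff ω x).1 hx
  refine (h1 v hv K x hx' a ha).mono fun N hNN => hNN.trans_le ?_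
  have hfin : {n : ℕ | n < N ∧ n • v ∈ cluster ω univ x ∧
      n • v ∉ cluster ω (box x (K * norm (n • v))) x ∧
      K * norm (n • v) < (openGraph ω univ).dist x (n • v)}.Finite :=
    (Set.finite_lt_nat N).subset fun n hn => hn.1
  have h3 : {n : ℕ | n < N ∧ Pool.Agent.H497_Line.Bx (Pool.Agent.Y990.CB.siteM d) ω v K n x}.ncard ≤
      {n : ℕ | n < N ∧ n • v ∈ cluster ω univ x ∧
        n • v ∉ cluster ω (box x (K * norm (n • v))) x ∧
        K * norm (n • v) < (openGraph ω univ).dist x (n • v)}.ncard := by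
    refine Set.ncard_le_ncard ?_ hfin
    rintro n ⟨hn, hB1, hB2⟩
    have hr := h2 x (n • v) hx' hB1
    refine ⟨hn, ⟨⟨hxo, mem_univ x⟩, ?_⟩, fun hc => hB2 ?_, ?_⟩
    · rw [graph_eq]
      exact hr
    · exact cluster_sub ω _ x hc
    · rw [graph_eq]
      exact Pool.Agent.H497_Line.dist_gt' hr hB2
  exact_mod_cast h3

end

end Pool.Agent.Results.MP_e13933_pr.SuperlinearDistances
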