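import Pool.Agent.Y990.SH.Main2
import Pool.Agent.Helper198_TC.Poly

set_option autoImplicit false

open MeasureTheory Set Filter
open scoped Topology

/-!
Site percolation on `Z^d`, `d ≥ 2`, at the critical point: the number of open clusters crossing the
annuli of a fixed ratio is tight if and only if the crossing probabilities decay polynomially, and
in this case there is no percolation at the critical point.
-/

namespace Pool.Agent.Results.MP_e13933_pr.TightCrossing

noncomputable section

/-- Vertices of `Z^d`. -/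
abbrev V (d : ℕ) : Type := Fin d → ℤ

/-- The box of radius `N` around the origin. -/
def box (d N : ℕ) : Set (V d) := {x | ∀ i, |x i| ≤ N}

/-- The boundary of the box of radius `N`: its vertices with a coordinate of absolute value `N`. -/
def sphere (d N : ℕ) : Set (V d) := {x | x ∈ box d N ∧ ∃ i, |x i| = N}

/-- The open subgraph inside the region `S`: two vertices at Euclidean distance one are joined if
both are open (`ω x = true`) and in `S`. -/
def openGraph {d : ℕ} (ω : V d → Bool) (S : Set (V d)) : SimpleGraph (V d) where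
  Adj x y := ∑ i, |x i - y i| = 1 ∧ (x ∈ S ∧ ω x = true) ∧ (y ∈ S ∧ ω y = true)
  symm := ⟨fun x y ⟨h1, h2, h3⟩ => ⟨by simpa only [abs_sub_comm] using h1, h3, h2⟩⟩
  loopless := ⟨fun x h => by simpa using h.1⟩

/-- The open cluster of `x` inside the region `S` (empty if `x` is closed). -/
def cluster {d : ℕ} (ω : V d → Bool) (S : Set (V d)) (x : V d) : Set (V d) :=
  {y | (ω x = true ∧ x ∈ S) ∧ (openGraph ω S).Reachable x y}

/-- Site percolation with parameter `p`: all vertices are open with probability `p`,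
independently. -/
def P (d : ℕ) (p : unitInterval) : Measure (V d → Bool) :=
  Measure.infinitePi (fun _ : V d =>
    ENNReal.ofReal (p : ℝ) • Measure.dirac true + ENNReal.ofReal (1 - (p : ℝ)) • Measure.dirac false)

/-- The percolation probability `θ_d(p)`. -/
def theta (d : ℕ) (p : unitInterval) : ℝ := (P d p).real {ω | (cluster ω univ 0).Infinite}

/-- The critical point `p_c(d)`, the supremum of the parameters with `θ_d(p) = 0`. -/
def pc (d : ℕ) : unitInterval :=
  ⟨sSup {t : ℝ | ∃ q : unitInterval, (q : ℝ) = t ∧ theta d q = 0}, by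
    constructor
    · apply Real.sSup_nonneg
      rintro x ⟨q, rfl, _⟩
      exact q.2.1
    · apply Real.sSup_le
      · rintro x ⟨q, rfl, _⟩
        exact q.2.2
      · exact zero_le_one⟩

/-- The open clusters of the box of radius `R` which meet the box of radius `r` and the boundary of
the box of radius `R`. -/
def crossing (d r R : ℕ) (ω : V d → Bool) : Set (Set (V d)) :=
  {C | ∃ x ∈ box d r, ∃ y ∈ sphere d R, y ∈ cluster ω (box d R) x ∧ C = cluster ω (box d R) x}

/-- The box of radius `n` is connected by an open path to the boundary of the box of radius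
`m`. -/
def reach (d n m : ℕ) : Set (V d → Bool) :=
  {ω | ∃ x ∈ box d n, ∃ y ∈ sphere d m, y ∈ cluster ω univ x}

lemma nd_mem {d : ℕ} {ω : V d → Bool} {x y : V d} :
    (∀ c ∈ (Pool.Agent.Y990.CB.siteM d).nd x y, ω c = true) ↔ ω x = true ∧ ω y = true := by
  show (∀ c : V d, c ∈ ({x, y} : Finset (V d)) → ω c = true) ↔ _
  simp only [Finset.mem_insert, Finset.mem_singleton, forall_eq_or_imp, forall_eq]

open Pool.Agent.Y990.CB in
lemma adj_iff {d : ℕ} (ω : V d → Bool) (S : Set (V d)) (x y : V d) :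
    (openGraph ω S).Adj x y ↔ (G (siteM d) ω S).Adj x y := by
  show (∑ i, |x i - y i| = 1 ∧ (x ∈ S ∧ ω x = true) ∧ (y ∈ S ∧ ω y = true)) ↔
    (∑ i, |x i - y i| = 1 ∧ x ∈ S ∧ y ∈ S ∧ ∀ c ∈ (siteM d).nd x y, ω c = true)
  rw [nd_mem]
  tauto

open Pool.Agent.Y990.CB in
lemma graph_eq {d : ℕ} (ω : V d → Bool) (S : Set (V d)) :
    openGraph ω S = G (siteM d) ω S := by
  ext x y
  exact adj_iff ω S x y

open Pool.Agent.Y990.CB in
lemma cluster_sub {d : ℕ} (ω : V d → Bool) (S : Set (V d)) (x : V d) :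
    cluster ω S x ⊆ cl (siteM d) ω S x := by
  rintro y ⟨-, h⟩
  rw [graph_eq] at h
  exact h

open Pool.Agent.Y990.CB in
lemma open_of_reach {d : ℕ} {ω : V d → Bool} {S : Set (V d)} {x y : V d} (hxy : y ≠ x)
    (h : (G (siteM d) ω S).Reachable x y) : ω x = true ∧ x ∈ S := by
  obtain ⟨q⟩ := h
  cases q with
  | nil => exact absurd rfl hxy
  | cons hadj _ => exact ⟨(nd_mem.1 hadj.2.2.2).1, hadj.2.1⟩

open Pool.Agent.Y990.CB in
lemma cluster_eq {d : ℕ} {ω : V d → Bool} {S : Set (V d)} {x y : V d} (hxy : y ≠ x)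
    (h : y ∈ cl (siteM d) ω S x) : cluster ω S x = cl (siteM d) ω S x := by
  refine subset_antisymm (cluster_sub ω S x) fun z hz => ?_
  refine ⟨open_of_reach hxy h, ?_⟩
  rw [graph_eq]
  exact hz

open Pool.Agent.Y990.CB in
lemma infinite_iff {d : ℕ} (ω : V d → Bool) (x : V d) :
    (cluster ω univ x).Infinite ↔ ω ∈ Perc (siteM d) x := by
  constructor
  · intro h
    exact h.mono (cluster_sub ω univ x)
  · intro h
    obtain ⟨y, hy, hyx⟩ := Set.Infinite.exists_notMem_finset h {x}
    have hyx' : y ≠ x := by simpa using hyx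
    rw [cluster_eq hyx' hy]
    exact h

open Pool.Agent.Y990.CB in
lemma P_eq (d : ℕ) (p : unitInterval) : P d p = mu (siteM d) p := rfl

open Pool.Agent.Y990.CB in
lemma theta_eq (d : ℕ) (p : unitInterval) : theta d p = th (siteM d) p := by
  unfold theta th
  rw [P_eq]
  congr 1
  ext ω
  exact infinite_iff ω 0

open Pool.Agent.Y990.CB in
lemma pc_eq (d : ℕ) : pc d = Pool.Agent.Y990.CB.pc (siteM d) := by
  apply Subtype.ext
  show sSup {t : ℝ | ∃ q : unitInterval, (q : ℝ) = t ∧ theta d q = 0} =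
    sSup {x : ℝ | ∃ q : unitInterval, (q : ℝ) = x ∧ th (siteM d) q = 0}
  simp only [theta_eq]

open Pool.Agent.Y990.CB in
lemma box_eq (d N : ℕ) : box d N = Bo (0 : V d) N := by
  ext x
  simp only [box, Bo, mem_ofPred_eq, Pi.zero_apply, sub_zero]

open Pool.Agent.Y990.CB in
lemma sphere_eq (d N : ℕ) : sphere d N = Fr (0 : V d) N := by
  ext x
  simp only [sphere, Fr, mem_ofPred_eq, Pi.zero_apply, sub_zero, box_eq]

lemma ne_of_lt {d r R : ℕ} (h : r < R) {x y : V d} (hx : x ∈ box d r) (hy : y ∈ sphere d R) :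
    y ≠ x := by
  rintro rfl
  obtain ⟨-, i, hi⟩ := hy
  have h1 : |y i| ≤ (r : ℤ) := hx i
  rw [hi] at h1
  have : (R : ℤ) ≤ r := h1
  omega

open Pool.Agent.Y990.CB in
lemma crossing_finite (d r R : ℕ) (ω : V d → Bool) : (crossing d r R ω).Finite := by
  have hb : (box d r).Finite := by
    rw [box_eq]
    exact Bo_finite 0 r
  refine (hb.image fun x => cluster ω (box d R) x).subset ?_
  rintro C ⟨x, hx, -, -, -, rfl⟩
  exact ⟨x, hx, rfl⟩

open Pool.Agent.Y990.CB Pool.Agent.Helper198_TC in
/-- The event of the library. -/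
lemma crossing_iff (d q r R : ℕ) (hrR : r < R) (ω : V d → Bool) :
    q ≤ (crossing d r R ω).ncard ↔ ω ∈ Cq (siteM d) q (0 : V d) r 0 R := by
  constructor
  · intro h
    have hf := crossing_finite d r R ω
    rw [Set.ncard_eq_toFinset_card _ hf] at h
    have key : ∀ i : Fin q, ∃ x ∈ box d r, ∃ y ∈ sphere d R, y ∈ cluster ω (box d R) x ∧
        ((hf.toFinset.equivFin.symm (Fin.castLE h i) : hf.toFinset) : Set (V d)) =
          cluster ω (box d R) x := fun i => by
      have h1 := (hf.toFinset.equivFin.symm (Fin.castLE h i)).2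
      rw [Set.Finite.mem_toFinset] at h1
      exact h1
    choose x hx y hy hyx hC using key
    refine ⟨x, fun i => ⟨by rw [← box_eq]; exact hx i, y i, by rw [← sphere_eq]; exact hy i,
      by rw [← box_eq]; exact cluster_sub ω _ _ (hyx i)⟩, fun i j hij hr => ?_⟩
    rw [← box_eq] at hr
    have e1 := cluster_eq (ne_of_lt hrR (hx i) (hy i)) (cluster_sub ω _ _ (hyx i))
    have e2 := cluster_eq (ne_of_lt hrR (hx j) (hy j)) (cluster_sub ω _ _ (hyx j))
    have e3 : cl (siteM d) ω (box d R) (x i) = cl (siteM d) ω (box d R) (x j) := by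
      ext z
      exact ⟨fun hz => hr.symm.trans hz, fun hz => hr.trans hz⟩
    have e4 : (hf.toFinset.equivFin.symm (Fin.castLE h i) : hf.toFinset) =
        hf.toFinset.equivFin.symm (Fin.castLE h j) := by
      apply Subtype.ext
      rw [hC i, hC j, e1, e2, e3]
    exact hij (Fin.castLE_injective h (hf.toFinset.equivFin.symm.injective e4))
  · rintro ⟨x, hx, hne⟩
    have hx1 : ∀ i, x i ∈ box d r := fun i => by rw [box_eq]; exact (hx i).1
    have hx2 : ∀ i, ∃ y ∈ sphere d R, y ∈ cl (siteM d) ω (box d R) (x i) := fun i => by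
      obtain ⟨-, y, hy, hyx⟩ := hx i
      rw [← sphere_eq] at hy
      rw [← box_eq] at hyx
      exact ⟨y, hy, hyx⟩
    choose y hy hyx using hx2
    have e1 : ∀ i, cluster ω (box d R) (x i) = cl (siteM d) ω (box d R) (x i) := fun i =>
      cluster_eq (ne_of_lt hrR (hx1 i) (hy i)) (hyx i)
    have hinj : Function.Injective fun i : Fin q => cluster ω (box d R) (x i) := by
      intro i j hij
      by_contra hc
      simp only [e1] at hij
      refine hne i j hc ?_
      have : x j ∈ cl (siteM d) ω (box d R) (x i) := by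
        rw [hij]
        exact SimpleGraph.Reachable.refl _
      rw [← box_eq]
      exact this
    have h1 : (Set.range fun i : Fin q => cluster ω (box d R) (x i)).ncard = q := by
      rw [← Set.image_univ, Set.ncard_image_of_injective _ hinj, Set.ncard_univ, Nat.card_eq_fintype_card,
        Fintype.card_fin]
    rw [← h1]
    refine Set.ncard_le_ncard ?_ (crossing_finite d r R ω)
    rintro C ⟨i, rfl⟩
    refine ⟨x i, hx1 i, y i, hy i, ?_, rfl⟩
    rw [e1]
    exact hyx i

open Pool.Agent.Y990.CB Pool.Agent.Helper198_TC in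
lemma reach_iff (d n m : ℕ) (hnm : n < m) : reach d n m = Cq (siteM d) 1 (0 : V d) n 0 m := by
  ext ω
  constructor
  · rintro ⟨x, hx, y, hy, hyx⟩
    rw [sphere_eq] at hy
    refine ⟨fun _ => x, fun _ => ⟨by rw [← box_eq]; exact hx, ?_⟩, fun i j hij => ?_⟩
    · refine exit_Am ?_ (Or.inr hy) (cluster_sub ω _ _ hyx)
      rw [box_eq] at hx
      exact Bo_mono 0 hnm.le hx
    · exact absurd (Subsingleton.elim i j) hij
  · rintro ⟨x, hx, -⟩
    obtain ⟨hx1, y, hy, hyx⟩ := hx 0
    rw [← box_eq] at hx1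
    rw [← sphere_eq] at hy
    refine ⟨x 0, hx1, y, hy, ?_⟩
    have h2 : y ∈ cl (siteM d) ω univ (x 0) := reach_mono (subset_univ _) hyx
    rw [cluster_eq (ne_of_lt hnm hx1 hy) h2]
    exact h2

/-- The number of crossing clusters of the annuli of ratio `a` is tight at the critical point. -/
def Tight (d a : ℕ) : Prop :=
  ∀ ε : ℝ, 0 < ε → ∃ r : ℕ, ∀ n : ℕ, 1 ≤ n →
    (P d (pc d)).real {ω | r < (crossing d n (a * n) ω).ncard} ≤ ε

/-- **Tightness of the number of crossing clusters at the critical point.**  Let `d ≥ 2` and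
`a ≥ 2`.  For critical site percolation on `Z^d` the number of open clusters of the box of radius
`a * n` which meet the box of radius `n` and the boundary of the box of radius `a * n` is tight in
`n` if and only if the probability that the box of radius `n` is connected to the boundary of the
box of radius `m` is at most `C * (n / m) ^ c` for some `C` and some `c > 0`; and in this case
`θ_d(p_c) = 0`. -/
theorem result (d : ℕ) (hd : 2 ≤ d) (a : ℕ) (ha : 2 ≤ a) :
    (Tight d a ↔ ∃ C c : ℝ, 0 < c ∧ ∀ n m : ℕ, 1 ≤ n → n < m →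
      (P d (pc d)).real (reach d n m) ≤ C * ((n : ℝ) / m) ^ c) ∧
    (Tight d a → theta d (pc d) = 0) := by
  have hN : Pool.Agent.Y990.CB.Nd (Pool.Agent.Y990.CB.siteM d) := Pool.Agent.Y990.CB.nd_site
  have hpos : 0 < Pool.Agent.Y990.CB.pc (Pool.Agent.Y990.CB.siteM d) :=
    Pool.Agent.Y333.CB.pc_pos d _ hN
  have main := Pool.Agent.Helper198_TC.tight_iff hd (Pool.Agent.Y990.CB.siteM d)
    (Pool.Agent.Y990.SH.fu_site d) hpos a ha
  have hT : Tight d a ↔ Pool.Agent.Helper198_TC.Tight (Pool.Agent.Y990.CB.siteM d)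
      (Pool.Agent.Y990.CB.pc (Pool.Agent.Y990.CB.siteM d)) a := by
    unfold Tight Pool.Agent.Helper198_TC.Tight
    have hset : ∀ n r : ℕ, 1 ≤ n → {ω | r < (crossing d n (a * n) ω).ncard} =
        Pool.Agent.Helper198_TC.Cq (Pool.Agent.Y990.CB.siteM d) (r + 1) (0 : V d) n 0 (a * n) := by
      intro n r hn
      ext ω
      exact Nat.lt_iff_add_one_le.trans (crossing_iff d (r + 1) n (a * n) (by nlinarith) ω)
    rw [pc_eq, P_eq]
    constructor
    · intro h s hs
      obtain ⟨r, hr⟩ := h s hs
      refine ⟨r + 1, fun m hm => ?_⟩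
      rw [← hset m r hm]
      exact hr m hm
    · intro h s hs
      obtain ⟨r, hr⟩ := h s hs
      refine ⟨r, fun n hn => ?_⟩
      rw [hset n r hn]
      exact (measureReal_mono (Pool.Agent.Helper198_TC.Cq_anti _ (Nat.le_succ r) _ _ _ _)
        (measure_ne_top _ _)).trans (hr n hn)
  have hP : (∃ C c : ℝ, 0 < c ∧ ∀ n m : ℕ, 1 ≤ n → n < m →
      (P d (pc d)).real (reach d n m) ≤ C * ((n : ℝ) / m) ^ c) ↔
      ∃ C c : ℝ, 0 < c ∧ ∀ n m : ℕ, 1 ≤ n → n ≤ m →
        (Pool.Agent.Y990.CB.mu (Pool.Agent.Y990.CB.siteM d)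
          (Pool.Agent.Y990.CB.pc (Pool.Agent.Y990.CB.siteM d))).real
          (Pool.Agent.Helper198_TC.Cq (Pool.Agent.Y990.CB.siteM d) 1 (0 : V d) n 0 m) ≤
            C * ((n : ℝ) / m) ^ c := by
    rw [pc_eq, P_eq]
    constructor
    · rintro ⟨C, c, hc, h⟩
      refine ⟨max C 1, c, hc, fun n m hn hnm => ?_⟩
      have hnpos : (0 : ℝ) < n := by exact_mod_cast hn
      rcases hnm.lt_or_eq with h1 | rfl
      · have h2 := h n m hn h1
        rw [reach_iff d n m h1] at h2
        have hmpos : (0 : ℝ) < m := by exact_mod_cast (by omega : 0 < m)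
        exact h2.trans (mul_le_mul_of_nonneg_right (le_max_left _ _)
          (Real.rpow_nonneg (div_nonneg hnpos.le hmpos.le) c))
      · rw [div_self hnpos.ne', Real.one_rpow, mul_one]
        exact measureReal_le_one.trans (le_max_right _ _)
    · rintro ⟨C, c, hc, h⟩
      refine ⟨C, c, hc, fun n m hn hnm => ?_⟩
      rw [reach_iff d n m hnm]
      exact h n m hn hnm.le
  refine ⟨by rw [hT, hP]; exact main, fun h => ?_⟩
  obtain ⟨C, c, hc, h1⟩ := main.1 (hT.1 h)
  rw [pc_eq, theta_eq]
  exact Pool.Agent.Helper198_TC.th_zero_of (by omega) _ _ hc h1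

end

end Pool.Agent.Results.MP_e13933_pr.TightCrossing
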